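import Mathlib
import Pool.Agent.Helper58.BDimDefs
import Pool.Agent.Helper58.BDimMain
import Pool.Agent.BDD.All

set_option autoImplicit false

namespace Pool.Agent.Results.MP_f4c717_co.DropIsTwo

open Pool.Agent.Helper58.BDimDefs

/-- The largest possible drop of the Boolean dimension after the removal of one point is two,
for both conventions on the sizes of Boolean realizers (size `0` allowed or not), and it is
attained by a poset of Boolean dimension six. -/
theorem result :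
    IsGreatest {n : ℤ | ∃ (X : Type) (_ : Finite X) (_ : PartialOrder X) (x : X),
      n = (bdim X : ℤ) - bdim {y : X // y ≠ x}} 2 ∧
    IsGreatest {n : ℤ | ∃ (X : Type) (_ : Finite X) (_ : PartialOrder X) (x : X),
      n = (bdimPos X : ℤ) - bdimPos {y : X // y ≠ x}} 2 ∧
    ∃ (X : Type) (_ : Finite X) (_ : PartialOrder X) (x : X),
      bdim X = 6 ∧ bdim {y : X // y ≠ x} = 4 ∧ bdimPos X = 6 ∧ bdimPos {y : X // y ≠ x} = 4 := by
  obtain ⟨X, hX, hP, x, h1, h2, h3, h4⟩ := Pool.Agent.BDD.thm_All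
  refine ⟨⟨⟨X, hX, hP, x, ?_⟩, ?_⟩, ⟨⟨X, hX, hP, x, ?_⟩, ?_⟩, X, hX, hP, x, h1, h2, h3, h4⟩
  · rw [h1, h2]
    norm_num
  · rintro n ⟨Y, hY, hQ, y, rfl⟩
    have h := Pool.Agent.Helper58.BDim.drop_le_two y
    have h' : (bdim Y : ℤ) ≤ bdim {z : Y // z ≠ y} + 2 := by exact_mod_cast h
    linarith
  · rw [h3, h4]
    norm_num
  · rintro n ⟨Y, hY, hQ, y, rfl⟩
    have h := Pool.Agent.Helper58.BDim.dropPos_le_two y
    have h' : (bdimPos Y : ℤ) ≤ bdimPos {z : Y // z ≠ y} + 2 := by exact_mod_cast h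
    linarith

end Pool.Agent.Results.MP_f4c717_co.DropIsTwo
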